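import Pool.Agent.H402R2.CE.Stmts

open Polynomial

namespace H402.CE

theorem t1a : T1a := by
  intro R _ _ _ τ c s hτ hs hc d
  induction d with
  | zero =>
    intro G hG
    simp only [pow_zero, one_mul, zero_add, Finset.sum_range_one]
    have hi : G.natDegree ∈ G.support := natDegree_mem_support_of_nonzero hG
    calc c 0 ≤ τ (s ^ 0 * G.coeff G.natDegree) := hc 0 _ (by simpa using hG)
      _ = τ (G.coeff G.natDegree) := by simp
      _ ≤ _ := Finset.single_le_sum (f := fun i => τ (G.coeff i)) (fun _ _ => Nat.zero_le _) hi
  | succ d ih =>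
    intro G hG
    have hXs : (X + C s : R[X]) ≠ 0 := X_add_C_ne_zero s
    set F : R[X] := (X + C s) ^ (d + 1) * G with hF
    have hF0 : F ≠ 0 := mul_ne_zero (pow_ne_zero _ hXs) hG
    set i0 := F.natTrailingDegree with hi0
    have hi0F : i0 ∈ F.support := natTrailingDegree_mem_support_of_nonzero hF0
    have hXs0 : (X + C s : R[X]).trailingCoeff = s := by
      have h0 : (X + C s : R[X]).natTrailingDegree = 0 := by
        apply natTrailingDegree_eq_zero.2
        right
        simpa using hs
      rw [trailingCoeff, h0]
      simp
    have hcoef : F.coeff i0 = s ^ (d + 1) * G.trailingCoeff := by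
      change F.trailingCoeff = _
      have hpow : ∀ k : ℕ, ((X + C s : R[X]) ^ k).trailingCoeff = s ^ k := by
        intro k
        induction k with
        | zero => simp [trailingCoeff]
        | succ k ihk => rw [pow_succ, trailingCoeff_mul, ihk, hXs0, pow_succ]
      rw [hF, trailingCoeff_mul, hpow]
    have hc1 : c (d + 1) ≤ τ (F.coeff i0) := by
      rw [hcoef]
      exact hc _ _ (trailingCoeff_nonzero_iff_nonzero.2 hG)
    set G' : R[X] := X * (((d + 1 : ℕ) : R[X]) * G + (X + C s) * derivative G) -
      (i0 : R[X]) * (X + C s) * G with hG'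
    have hFG' : X * derivative F - (i0 : R[X]) * F = (X + C s) ^ d * G' := by
      rw [hF, hG', derivative_mul, derivative_pow, derivative_add, derivative_X, derivative_C]
      simp only [Nat.add_sub_cancel, add_zero, mul_one, map_natCast]
      ring
    have hco : ∀ i : ℕ, (X * derivative F - (i0 : R[X]) * F).coeff i =
        (((i : ℤ) - (i0 : ℤ) : ℤ) : R) * F.coeff i := by
      intro i
      rw [coeff_sub, coeff_natCast_mul]
      cases i with
      | zero => simp
      | succ i =>
        rw [coeff_X_mul, coeff_derivative]
        push_cast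
        ring
    have hG'0 : G' ≠ 0 := by
      intro h0
      rw [h0, mul_zero] at hFG'
      have h1 : ∀ i, i ≠ i0 → F.coeff i = 0 := by
        intro i hi
        have h2 := hco i
        rw [hFG', coeff_zero] at h2
        rcases mul_eq_zero.1 h2.symm with h3 | h3
        · exfalso
          have : ((i : ℤ) - (i0 : ℤ) : ℤ) = 0 := by exact_mod_cast h3
          omega
        · exact h3
      have h2 : F = C (F.coeff i0) * X ^ i0 := by
        ext i
        rw [coeff_C_mul, coeff_X_pow]
        by_cases hi : i = i0
        · rw [hi]; simp
        · rw [h1 i hi, if_neg hi, mul_zero]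
      have h3 : F.eval (-s) = 0 := by
        rw [hF]
        simp
      rw [h2] at h3
      simp only [eval_mul, eval_C, eval_pow, eval_X] at h3
      rcases mul_eq_zero.1 h3 with h4 | h4
      · exact (mem_support_iff.1 hi0F) h4
      · exact (pow_ne_zero i0 (neg_ne_zero.2 hs)) h4
    have hIH := ih G' hG'0
    rw [← hFG'] at hIH
    have hsupp : (X * derivative F - (i0 : R[X]) * F).support = F.support.erase i0 := by
      ext i
      rw [mem_support_iff, hco, Finset.mem_erase, mem_support_iff]
      constructor
      · intro h
        refine ⟨?_, right_ne_zero_of_mul h⟩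
        rintro rfl
        simp at h
      · rintro ⟨h1, h2⟩
        refine mul_ne_zero ?_ h2
        intro h3
        have : ((i : ℤ) - (i0 : ℤ) : ℤ) = 0 := by exact_mod_cast h3
        omega
    rw [Finset.sum_range_succ, ← Finset.add_sum_erase _ _ hi0F]
    have hle : ∑ i ∈ F.support.erase i0, τ ((X * derivative F - (i0 : R[X]) * F).coeff i) =
        ∑ i ∈ F.support.erase i0, τ (F.coeff i) := by
      refine Finset.sum_congr rfl fun i hi => ?_
      rw [hco, hτ]
      have := (Finset.mem_erase.1 hi).1
      omega
    rw [hsupp, hle] at hIH
    omega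

end H402.CE
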