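import Pool.Agent.H402R2.CE.Stmts

open MvPolynomial

namespace H402.CE

theorem t3b (h2 : T2) (h3 : T3) : T3b := by
  intro n d m p q A hA hne
  have hev : ∀ (z : Fin (n + 1) → ℂ),
      eval (Sum.elim z (fun k => (starRingEnd ℂ) (z k)))
        (∑ j, rename Sum.inl (p j) * rename Sum.inr (map (starRingEnd ℂ) (q j)) :
          MvPolynomial (Fin (n + 1) ⊕ Fin (n + 1)) ℂ) =
      ∑ j, eval z (p j) * (starRingEnd ℂ) (eval z (q j)) := by
    intro z
    rw [map_sum]
    refine Finset.sum_congr rfl fun j _ => ?_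
    rw [map_mul, eval_rename, eval_rename]
    congr 1
    have : (Sum.elim z (fun k => (starRingEnd ℂ) (z k)) ∘ Sum.inr) =
        fun k => (starRingEnd ℂ) (z k) := rfl
    rw [this, eval_map]
    induction (q j) using MvPolynomial.induction_on with
    | C a => simp
    | add a b ha hb => rw [eval₂_add, ha, hb, map_add, map_add]
    | mul_X a i ha => rw [eval₂_mul, ha, eval₂_X, map_mul, eval_X, map_mul]
  have hL : ∀ (z : Fin (n + 1) → ℂ),
      eval (Sum.elim z (fun k => (starRingEnd ℂ) (z k)))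
        (∑ k : Fin (n + 1), X (Sum.inl k) * X (Sum.inr k) :
          MvPolynomial (Fin (n + 1) ⊕ Fin (n + 1)) ℂ) = ((∑ k, ‖z k‖ ^ 2 : ℝ) : ℂ) := by
    intro z
    rw [map_sum]
    push_cast
    refine Finset.sum_congr rfl fun k _ => ?_
    rw [map_mul, eval_X, eval_X]
    simp only [Sum.elim_inl, Sum.elim_inr]
    rw [Complex.mul_conj, Complex.normSq_eq_norm_sq]
    push_cast
    rfl
  have key := h3 (n + 1) ((∑ j, rename Sum.inl (p j) * rename Sum.inr (map (starRingEnd ℂ) (q j)))
    - (∑ k : Fin (n + 1), X (Sum.inl k) * X (Sum.inr k)) ^ d * A) (by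
      intro z
      rw [map_sub, map_mul, map_pow, hev, hL, hA z, sub_self])
  rw [sub_eq_zero] at key
  refine h2 n d m p (fun j => map (starRingEnd ℂ) (q j)) A key ?_
  rintro rfl
  obtain ⟨z, hz⟩ := hne
  apply hz
  rw [← hev z, key, mul_zero, map_zero]

end H402.CE
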