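import Pool.Agent.H402R2.CE.Stmts

namespace H402.CE

theorem t7a : T7a := by
  intro N m hN hm
  obtain ⟨k, rfl⟩ : ∃ k, N = k + 1 := ⟨N - 1, by omega⟩
  simp only [Nat.add_sub_cancel] at hm
  obtain ⟨b, hb, c, hc⟩ : ∃ b, b ≤ k ∧ ∃ c, m + b = c * (k + 1) := by
    refine ⟨k - (m + k) % (k + 1), Nat.sub_le _ _, (m + k) / (k + 1), ?_⟩
    have h1 := Nat.div_add_mod' (m + k) (k + 1)
    have h2 : (m + k) % (k + 1) < k + 1 := Nat.mod_lt (m + k) (Nat.succ_pos k)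
    omega
  have h3 : 2 * b ≤ c := by
    by_contra hcon
    push Not at hcon
    have h4 : c * (k + 1) ≤ (2 * b - 1) * (k + 1) := Nat.mul_le_mul_right _ (by omega)
    rw [← hc] at h4
    have hb1 : 1 ≤ b := by omega
    obtain ⟨b', rfl⟩ : ∃ b', b = b' + 1 := ⟨b - 1, by omega⟩
    have h5 : 2 * (b' + 1) - 1 = 2 * b' + 1 := by omega
    rw [h5] at h4
    have h6 : b' + 1 ≤ k := hb
    nlinarith [Nat.mul_le_mul_right k h6, Nat.mul_le_mul_right b' h6]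
  refine ⟨c - 2 * b, b, ?_⟩
  have h5 : 2 * (k + 1) - 1 = 2 * k + 1 := by omega
  rw [h5]
  zify [h3]
  have hc' : (m : ℤ) + b = c * (k + 1) := by exact_mod_cast hc
  linarith

end H402.CE
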