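import Pool.Agent.H402R2.CE.Stmts

open MvPolynomial

namespace H402.CE

lemma t1_sum_ne (n : ℕ) : (∑ i : Fin (n + 1), (X i : MvPolynomial (Fin (n + 1)) ℂ)) ≠ 0 := by
  intro h
  have h1 := congrArg (eval (fun _ => (1 : ℂ))) h
  rw [map_sum, map_zero] at h1
  simp only [eval_X, Finset.sum_const, Finset.card_univ, Fintype.card_fin, nsmul_eq_mul,
    mul_one] at h1
  exact Nat.cast_ne_zero.mpr (Nat.succ_ne_zero n) h1

lemma t1_card (n : ℕ) (f : MvPolynomial (Fin (n + 1)) ℂ) :
    f.support.card = ∑ i ∈ (finSuccEquiv ℂ n f).support,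
      ((finSuccEquiv ℂ n f).coeff i).support.card := by
  rw [support_finSuccEquiv,
    Finset.card_eq_sum_card_image (fun m : Fin (n + 1) →₀ ℕ => m 0) f.support]
  apply Finset.sum_congr rfl
  intro i _
  rw [← image_support_finSuccEquiv]
  apply Finset.card_image_of_injective
  intro a b hab
  have := congrArg Finsupp.tail hab
  simpa using this

lemma t1_choose (n d : ℕ) :
    ∑ e ∈ Finset.range (d + 1), (n + e).choose e = (n + 1 + d).choose d := by
  induction d with
  | zero => simp
  | succ d ih =>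
    rw [Finset.sum_range_succ, ih]
    have h1 : n + 1 + (d + 1) = (n + 1 + d) + 1 := by ring
    have h2 : n + (d + 1) = n + 1 + d := by ring
    rw [h1, h2, Nat.choose_succ_succ]

theorem t1 (h : T1a) : T1 := by
  intro n
  induction n with
  | zero =>
    intro d g hg
    rw [zero_add, Nat.choose_self]
    have h1 : (∑ i : Fin (0 + 1), (X i : MvPolynomial (Fin (0 + 1)) ℂ)) ^ d * g ≠ 0 :=
      mul_ne_zero (pow_ne_zero d (t1_sum_ne 0)) hg
    exact Finset.card_pos.mpr (support_nonempty.mpr h1)
  | succ n ih =>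
    intro d g hg
    have hF : finSuccEquiv ℂ (n + 1) ((∑ i : Fin (n + 1 + 1), X i) ^ d * g) =
        (Polynomial.X + Polynomial.C (∑ i : Fin (n + 1), X i)) ^ d *
          finSuccEquiv ℂ (n + 1) g := by
      rw [map_mul, map_pow, Fin.sum_univ_succ, map_add, finSuccEquiv_X_zero, map_sum, map_sum]
      simp only [finSuccEquiv_X_succ]
    rw [t1_card (n + 1), hF]
    have hG : finSuccEquiv ℂ (n + 1) g ≠ 0 := by
      rw [Ne, EmbeddingLike.map_eq_zero_iff]
      exact hg
    have h1 := h (MvPolynomial (Fin (n + 1)) ℂ) (fun r => r.support.card)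
      (fun e => (n + e).choose e) (∑ i : Fin (n + 1), X i) ?_ (t1_sum_ne n)
      (fun e r hr => ih e r hr) d (finSuccEquiv ℂ (n + 1) g) hG
    · rw [← t1_choose]
      exact h1
    · intro a r ha
      show ((a : MvPolynomial (Fin (n + 1)) ℂ) * r).support.card = r.support.card
      congr 1
      ext m
      have h2 : (a : MvPolynomial (Fin (n + 1)) ℂ) = C (a : ℂ) := by simp
      rw [h2, mem_support_iff, mem_support_iff, coeff_C_mul]
      have h3 : (a : ℂ) ≠ 0 := Int.cast_ne_zero.mpr ha
      simp [h3]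

end H402.CE
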