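import Mathlib

/-!
# MP_ce7760_an : ranks of sums of squares divisible by powers of the squared norm
-/

open MvPolynomial

namespace H402.CE

/-- `S d n`: the set of all `m` such that there are `m` linearly independent holomorphic
polynomials `p 0, ..., p (m-1)` on `ℂ^n` with `∑ j, |p j (z)|^2 = ‖z‖^(2d) * A (z, conj z)` for a
polynomial `A` in `z` and `conj z`. -/
def S (d n : ℕ) : Set ℕ :=
  {m | ∃ p : Fin m → MvPolynomial (Fin n) ℂ, LinearIndependent ℂ p ∧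
    ∃ A : MvPolynomial (Fin n ⊕ Fin n) ℂ, ∀ z : Fin n → ℂ,
      ((∑ j, ‖eval z (p j)‖ ^ 2 : ℝ) : ℂ) =
        ((∑ k, ‖z k‖ ^ 2 : ℝ) : ℂ) ^ d *
          eval (Sum.elim z (fun k => (starRingEnd ℂ) (z k))) A}

/-- The slice of `P ∈ ℂ[z, w]` along the exponents `(a + δ, b + δ)`: see `coeff_slice`. -/
noncomputable def slice {N : ℕ} (a b : Fin N →₀ ℕ) (P : MvPolynomial (Fin N ⊕ Fin N) ℂ) :
    MvPolynomial (Fin N) ℂ :=
  ∑ e ∈ P.support, if Finsupp.sumElim (a + (e.comapDomain Sum.inl Sum.inl_injective.injOn - a))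
      (b + (e.comapDomain Sum.inl Sum.inl_injective.injOn - a)) = e then
    monomial (e.comapDomain Sum.inl Sum.inl_injective.injOn - a) (coeff e P) else 0

theorem coeff_slice {N : ℕ} (a b : Fin N →₀ ℕ) (P : MvPolynomial (Fin N ⊕ Fin N) ℂ)
    (δ : Fin N →₀ ℕ) :
    coeff δ (slice a b P) = coeff (Finsupp.sumElim (a + δ) (b + δ)) P := by
  classical
  have hL : (Finsupp.sumElim (a + δ) (b + δ)).comapDomain Sum.inl Sum.inl_injective.injOn - a
      = δ := by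
    ext i; simp
  rw [slice, coeff_sum]
  rw [Finset.sum_eq_single (Finsupp.sumElim (a + δ) (b + δ))]
  · rw [hL]; simp
  · intro e _ hne
    split_ifs with h
    · rw [coeff_monomial, if_neg]
      intro h'
      apply hne
      rw [← h, h']
    · simp
  · intro h
    rw [hL, if_pos rfl, notMem_support_iff.1 h]
    simp

/-- Descartes in `R[X]`. -/
def T1a : Prop := ∀ (R : Type) [CommRing R] [IsDomain R] [CharZero R] (τ : R → ℕ) (c : ℕ → ℕ)
  (s : R), (∀ (a : ℤ) (r : R), a ≠ 0 → τ ((a : R) * r) = τ r) → s ≠ 0 →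
  (∀ (e : ℕ) (r : R), r ≠ 0 → c e ≤ τ (s ^ e * r)) →
  ∀ (d : ℕ) (G : Polynomial R), G ≠ 0 →
    ∑ e ∈ Finset.range (d + 1), c e ≤
      ∑ i ∈ ((Polynomial.X + Polynomial.C s) ^ d * G).support,
        τ (((Polynomial.X + Polynomial.C s) ^ d * G).coeff i)

/-- A nonzero multiple of `(X_0 + ... + X_n)^d` has at least `(n+d).choose d` terms. -/
def T1 : Prop := ∀ (n d : ℕ) (g : MvPolynomial (Fin (n + 1)) ℂ), g ≠ 0 →
  (n + d).choose d ≤ ((∑ i, X i) ^ d * g).support.card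

/-- slices and multiplication by `∑ z_k w_k` -/
def T2a : Prop := ∀ (N d : ℕ) (a b : Fin N →₀ ℕ), (∀ i, a i = 0 ∨ b i = 0) →
  ∀ P : MvPolynomial (Fin N ⊕ Fin N) ℂ,
    slice a b ((∑ k : Fin N, X (Sum.inl k) * X (Sum.inr k)) ^ d * P) =
      (∑ i, X i) ^ d * slice a b P

/-- the rank is at least the number of terms of some nonzero slice -/
def T2b : Prop := ∀ (N m : ℕ) (p q : Fin m → MvPolynomial (Fin N) ℂ),
  (∑ j, rename Sum.inl (p j) * rename Sum.inr (q j) : MvPolynomial (Fin N ⊕ Fin N) ℂ) ≠ 0 →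
  ∃ a b : Fin N →₀ ℕ, (∀ i, a i = 0 ∨ b i = 0) ∧
    slice a b (∑ j, rename Sum.inl (p j) * rename Sum.inr (q j)) ≠ 0 ∧
    (slice a b (∑ j, rename Sum.inl (p j) * rename Sum.inr (q j))).support.card ≤ m

/-- the lower bound for the rank, formal version -/
def T2 : Prop := ∀ (n d m : ℕ) (p q : Fin m → MvPolynomial (Fin (n + 1)) ℂ)
  (A : MvPolynomial (Fin (n + 1) ⊕ Fin (n + 1)) ℂ),
  (∑ j, rename Sum.inl (p j) * rename Sum.inr (q j)) =
    (∑ k : Fin (n + 1), X (Sum.inl k) * X (Sum.inr k)) ^ d * A → A ≠ 0 → (n + d).choose d ≤ m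

/-- polarization -/
def T3 : Prop := ∀ (N : ℕ) (P : MvPolynomial (Fin N ⊕ Fin N) ℂ),
  (∀ z : Fin N → ℂ, eval (Sum.elim z (fun k => (starRingEnd ℂ) (z k))) P = 0) → P = 0

/-- the lower bound for the rank, for functions -/
def T3b : Prop := ∀ (n d m : ℕ) (p q : Fin m → MvPolynomial (Fin (n + 1)) ℂ)
  (A : MvPolynomial (Fin (n + 1) ⊕ Fin (n + 1)) ℂ),
  (∀ z : Fin (n + 1) → ℂ, ∑ j, eval z (p j) * (starRingEnd ℂ) (eval z (q j)) =
    ((∑ k, ‖z k‖ ^ 2 : ℝ) : ℂ) ^ d * eval (Sum.elim z (fun k => (starRingEnd ℂ) (z k))) A) →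
  (∃ z : Fin (n + 1) → ℂ, ∑ j, eval z (p j) * (starRingEnd ℂ) (eval z (q j)) ≠ 0) →
  (n + d).choose d ≤ m

/-- closure under addition -/
def T4 : Prop := ∀ (d n m₁ m₂ : ℕ), 1 ≤ n → m₁ ∈ S d n → m₂ ∈ S d n → m₁ + m₂ ∈ S d n

/-- diagonal sums of squares -/
def T5 : Prop := ∀ (d n : ℕ) (f : MvPolynomial (Fin n) ℝ), (∀ α, 0 ≤ coeff α f) →
  (∑ i, X i) ^ d ∣ f → f.support.card ∈ S d n

def T6a : Prop := ∀ (d n : ℕ), 1 ≤ n → (n + d - 1).choose d ∈ S d n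

def T6b : Prop := ∀ (d n j : ℕ), 2 ≤ n → j < d →
  2 * (n + d - 1).choose d - (n + j - 1).choose j ∈ S d n

/-- arithmetic: cofiniteness -/
def T7a : Prop := ∀ (N m : ℕ), 1 ≤ N → 2 * (N - 1) ^ 2 ≤ m → ∃ a b : ℕ, m = a * N + b * (2 * N - 1)

end H402.CE
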