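import Mathlib
import Pool.Agent.H402R2.CE.Stmts

open MvPolynomial

namespace H402.CE

theorem sumXX_ne_zero (n : ℕ) :
    (∑ k : Fin (n + 1), X (Sum.inl k) * X (Sum.inr k) :
      MvPolynomial (Fin (n + 1) ⊕ Fin (n + 1)) ℂ) ≠ 0 := by
  intro h
  have h1 := congrArg (eval (fun _ => (1 : ℂ))) h
  simp only [map_sum, map_mul, eval_X, mul_one, map_zero, Finset.sum_const, Finset.card_univ,
    Fintype.card_fin, nsmul_eq_mul] at h1
  exact absurd h1 (by exact_mod_cast Nat.succ_ne_zero n)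

theorem t2 (h1 : H402.CE.T1) (h2 : H402.CE.T2a) (h3 : H402.CE.T2b) : H402.CE.T2 := by
  intro n d m p q A hA hA0
  have hP : (∑ j, rename Sum.inl (p j) * rename Sum.inr (q j) :
      MvPolynomial (Fin (n + 1) ⊕ Fin (n + 1)) ℂ) ≠ 0 := by
    rw [hA]
    exact mul_ne_zero (pow_ne_zero _ (sumXX_ne_zero n)) hA0
  obtain ⟨a, b, hab, hs, hc⟩ := h3 (n + 1) m p q hP
  rw [hA, h2 (n + 1) d a b hab A] at hs hc
  exact (h1 n d (slice a b A) (right_ne_zero_of_mul hs)).trans hc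

end H402.CE
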