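import Pool.Agent.H402R2.CE.Stmts

/-!
# T2a: slices and multiplication by `∑ z_k w_k`
-/

open MvPolynomial

namespace H402.CE

theorem t2a_term {N : ℕ} (a b : Fin N →₀ ℕ) (hab : ∀ i, a i = 0 ∨ b i = 0)
    (P : MvPolynomial (Fin N ⊕ Fin N) ℂ) (δ : Fin N →₀ ℕ) (k : Fin N) :
    coeff (Finsupp.sumElim (a + δ) (b + δ)) (X (Sum.inl k) * X (Sum.inr k) * P) =
      coeff δ (X k * slice a b P) := by
  classical
  rw [mul_assoc, coeff_X_mul', coeff_X_mul', coeff_X_mul', coeff_slice]
  by_cases hk : δ k = 0
  · have h3 : k ∉ δ.support := by simpa using hk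
    rw [if_neg h3]
    rcases hab k with h | h
    · have h1 : Sum.inl k ∉ (Finsupp.sumElim (a + δ) (b + δ)).support := by
        simp [h, hk]
      rw [if_neg h1]
    · have h1 : Sum.inr k ∉ (Finsupp.sumElim (a + δ) (b + δ) -
          Finsupp.single (Sum.inl k) 1).support := by
        simp [h, hk]
      rw [if_neg h1]
      split_ifs <;> rfl
  · have h3 : k ∈ δ.support := by simpa using hk
    have h1 : Sum.inl k ∈ (Finsupp.sumElim (a + δ) (b + δ)).support := by
      simp [hk]
    have h2 : Sum.inr k ∈ (Finsupp.sumElim (a + δ) (b + δ) -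
          Finsupp.single (Sum.inl k) 1).support := by
      simp [hk]
    rw [if_pos h1, if_pos h2, if_pos h3]
    congr 1
    ext i
    rcases i with i | i
    · simp only [Finsupp.coe_tsub, Pi.sub_apply, Finsupp.sumElim_inl, Finsupp.coe_add,
        Pi.add_apply, Finsupp.single_apply, Sum.inl.injEq, reduceCtorEq, if_false]
      split_ifs with h
      · subst h
        omega
      · omega
    · simp only [Finsupp.coe_tsub, Pi.sub_apply, Finsupp.sumElim_inr, Finsupp.coe_add,
        Pi.add_apply, Finsupp.single_apply, Sum.inr.injEq, reduceCtorEq, if_false]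
      split_ifs with h
      · subst h
        omega
      · omega

theorem t2a_one {N : ℕ} (a b : Fin N →₀ ℕ) (hab : ∀ i, a i = 0 ∨ b i = 0)
    (P : MvPolynomial (Fin N ⊕ Fin N) ℂ) :
    slice a b ((∑ k : Fin N, X (Sum.inl k) * X (Sum.inr k)) * P) =
      (∑ i, X i) * slice a b P := by
  ext δ
  rw [coeff_slice, Finset.sum_mul, Finset.sum_mul, coeff_sum, coeff_sum]
  exact Finset.sum_congr rfl fun k _ => t2a_term a b hab P δ k

theorem t2a : T2a := by
  intro N d a b hab
  induction d with
  | zero =>
    intro P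
    rw [pow_zero, pow_zero, one_mul, one_mul]
  | succ d ih =>
    intro P
    rw [pow_succ', pow_succ', mul_assoc, mul_assoc, t2a_one a b hab, ih]

end H402.CE
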