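import Pool.Agent.H402R2.CE.Stmts

/-!
# Task T2b: the rank is at least the number of terms of some nonzero slice
-/

open MvPolynomial

namespace H402.CE

theorem t2b_map {N : ℕ} (u v : Fin N →₀ ℕ) :
    u.mapDomain Sum.inl + v.mapDomain Sum.inr = (Finsupp.sumElim u v : Fin N ⊕ Fin N →₀ ℕ) := by
  ext i
  rcases i with i | i
  · rw [Finsupp.add_apply, Finsupp.mapDomain_apply Sum.inl_injective,
      Finsupp.mapDomain_of_notMem_range _ _ (by rintro ⟨j, hj⟩; cases hj), Finsupp.sumElim_inl,
      add_zero]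
  · rw [Finsupp.add_apply, Finsupp.mapDomain_apply Sum.inr_injective,
      Finsupp.mapDomain_of_notMem_range _ _ (by rintro ⟨j, hj⟩; cases hj), Finsupp.sumElim_inr,
      zero_add]

theorem t2b_inj {N : ℕ} (u v x y : Fin N →₀ ℕ) :
    (Finsupp.sumElim u v : Fin N ⊕ Fin N →₀ ℕ) = Finsupp.sumElim x y ↔ u = x ∧ v = y := by
  constructor
  · intro h
    constructor
    · ext i
      have h1 := DFunLike.congr_fun h (Sum.inl i)
      rwa [Finsupp.sumElim_inl, Finsupp.sumElim_inl] at h1
    · ext i
      have h1 := DFunLike.congr_fun h (Sum.inr i)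
      rwa [Finsupp.sumElim_inr, Finsupp.sumElim_inr] at h1
  · rintro ⟨h1, h2⟩
    rw [h1, h2]

theorem t2b_coeff_mul {N : ℕ} (p q : MvPolynomial (Fin N) ℂ) (x y : Fin N →₀ ℕ) :
    coeff (Finsupp.sumElim x y)
      (rename Sum.inl p * rename Sum.inr q : MvPolynomial (Fin N ⊕ Fin N) ℂ) =
      coeff x p * coeff y q := by
  classical
  refine MvPolynomial.induction_on' p (fun u a => ?_) (fun p p' hp hp' => ?_)
  · refine MvPolynomial.induction_on' q (fun v b => ?_) (fun q q' hq hq' => ?_)
    · rw [rename_monomial, rename_monomial, monomial_mul, t2b_map, coeff_monomial, coeff_monomial,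
        coeff_monomial]
      by_cases h1 : u = x
      · by_cases h2 : v = y
        · rw [if_pos h1, if_pos h2, if_pos ((t2b_inj u v x y).2 ⟨h1, h2⟩)]
        · rw [if_neg h2, mul_zero, if_neg (fun h => h2 ((t2b_inj u v x y).1 h).2)]
      · rw [if_neg h1, zero_mul, if_neg (fun h => h1 ((t2b_inj u v x y).1 h).1)]
    · rw [map_add, mul_add, coeff_add, hq, hq', coeff_add, mul_add]
  · rw [map_add, add_mul, coeff_add, hp, hp', coeff_add, add_mul]

theorem t2b_lex {N : ℕ} (g t t' : Fin N → ℤ) (h : toLex t' < toLex t) :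
    toLex g < toLex (g + t - t') := by
  have h1 : toLex (g + t - t') = toLex g + (toLex t - toLex t') := by
    rw [add_sub_assoc]
    rfl
  rw [h1]
  exact lt_add_of_pos_right _ (sub_pos.2 h)

/-- the difference of the two parts of an exponent -/
def t2b_D {N : ℕ} (e : Fin N ⊕ Fin N →₀ ℕ) : Fin N → ℤ :=
  fun i => (e (Sum.inl i) : ℤ) - e (Sum.inr i)

theorem t2b : T2b := by
  classical
  intro N m p q hP
  obtain ⟨P, hPdef⟩ : ∃ P : MvPolynomial (Fin N ⊕ Fin N) ℂ,
    P = ∑ j, rename Sum.inl (p j) * rename Sum.inr (q j) := ⟨_, rfl⟩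
  rw [← hPdef] at hP ⊢
  have hco : ∀ x y : Fin N →₀ ℕ, coeff (Finsupp.sumElim x y) P =
      ∑ j, coeff x (p j) * coeff y (q j) := by
    intro x y
    rw [hPdef, coeff_sum]
    exact Finset.sum_congr rfl (fun j _ => t2b_coeff_mul (p j) (q j) x y)
  have hne : P.support.Nonempty := support_nonempty.2 hP
  obtain ⟨e0, he0, hmax⟩ := Finset.exists_max_image P.support (fun e => toLex (t2b_D e)) hne
  obtain ⟨δ0, hδ0⟩ : ∃ δ0 : Fin N →₀ ℕ, ∀ i, δ0 i = min (e0 (Sum.inl i)) (e0 (Sum.inr i)) :=
    ⟨Finsupp.equivFunOnFinite.symm (fun i => min (e0 (Sum.inl i)) (e0 (Sum.inr i))),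
      fun i => rfl⟩
  obtain ⟨a, ha⟩ : ∃ a : Fin N →₀ ℕ, ∀ i, a i = e0 (Sum.inl i) - δ0 i :=
    ⟨Finsupp.equivFunOnFinite.symm (fun i => e0 (Sum.inl i) - δ0 i), fun i => rfl⟩
  obtain ⟨b, hb⟩ : ∃ b : Fin N →₀ ℕ, ∀ i, b i = e0 (Sum.inr i) - δ0 i :=
    ⟨Finsupp.equivFunOnFinite.symm (fun i => e0 (Sum.inr i) - δ0 i), fun i => rfl⟩
  have hab : ∀ i, a i = 0 ∨ b i = 0 := by
    intro i
    have h1 := hδ0 i
    have h2 := ha i
    have h3 := hb i
    omega
  have he0' : Finsupp.sumElim (a + δ0) (b + δ0) = e0 := by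
    ext i
    rcases i with i | i
    · rw [Finsupp.sumElim_inl, Finsupp.add_apply]
      have h1 := hδ0 i
      have h2 := ha i
      omega
    · rw [Finsupp.sumElim_inr, Finsupp.add_apply]
      have h1 := hδ0 i
      have h3 := hb i
      omega
  refine ⟨a, b, hab, ?_, ?_⟩
  · intro h0
    have h1 : coeff δ0 (slice a b P) = coeff e0 P := by rw [coeff_slice, he0']
    rw [h0, coeff_zero] at h1
    exact (mem_support_iff.1 he0) h1.symm
  · by_contra hcon
    push Not at hcon
    set T := (slice a b P).support with hT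
    let L : (T → ℂ) →ₗ[ℂ] (Fin m → ℂ) :=
      Matrix.mulVecLin (Matrix.of (fun (j : Fin m) (t : T) => coeff (a + t.1) (p j)))
    have hker : LinearMap.ker L ≠ ⊥ := by
      apply LinearMap.ker_ne_bot_of_finrank_lt
      rw [Module.finrank_fin_fun, Module.finrank_fintype_fun_eq_card, Fintype.card_coe]
      exact hcon
    obtain ⟨c, hc, hc0⟩ := Submodule.exists_mem_ne_zero_of_ne_bot hker
    have hLc : ∀ j, ∑ t : T, coeff (a + t.1) (p j) * c t = 0 := by
      intro j
      have h1 : L c = 0 := LinearMap.mem_ker.1 hc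
      have h2 := congrFun h1 j
      exact h2
    have hsum : ∀ t' : Fin N →₀ ℕ,
        ∑ t : T, c t * coeff (Finsupp.sumElim (a + t.1) (b + t')) P = 0 := by
      intro t'
      have h1 : ∑ t : T, c t * coeff (Finsupp.sumElim (a + t.1) (b + t')) P =
          ∑ j, (∑ t : T, coeff (a + t.1) (p j) * c t) * coeff (b + t') (q j) := by
        simp_rw [hco, Finset.mul_sum, Finset.sum_mul]
        rw [Finset.sum_comm]
        refine Finset.sum_congr rfl (fun j _ => Finset.sum_congr rfl (fun t _ => ?_))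
        ring
      rw [h1]
      refine Finset.sum_eq_zero (fun j _ => ?_)
      rw [hLc j, zero_mul]
    have hSne : (Finset.univ.filter (fun t : T => c t ≠ 0)).Nonempty := by
      by_contra hemp
      rw [Finset.not_nonempty_iff_eq_empty, Finset.filter_eq_empty_iff] at hemp
      apply hc0
      funext t
      have h1 := hemp (Finset.mem_univ t)
      push Not at h1
      exact h1
    obtain ⟨t', ht', hmin⟩ := Finset.exists_min_image (Finset.univ.filter (fun t : T => c t ≠ 0))
      (fun t => toLex (fun i => ((t.1 i : ℕ) : ℤ))) hSne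
    have hct' : c t' ≠ 0 := (Finset.mem_filter.1 ht').2
    have h1 := hsum t'.1
    rw [Finset.sum_eq_single t'] at h1
    · have h2 : coeff t'.1 (slice a b P) = 0 := by
        rw [coeff_slice]
        exact (mul_eq_zero.1 h1).resolve_left hct'
      exact (mem_support_iff.1 t'.2) h2
    · intro t _ htt
      by_cases hct : c t = 0
      · rw [hct, zero_mul]
      · have h3 := hmin t (Finset.mem_filter.2 ⟨Finset.mem_univ _, hct⟩)
        have h4 : toLex (fun i => ((t'.1 i : ℕ) : ℤ)) ≠ toLex (fun i => ((t.1 i : ℕ) : ℤ)) := by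
          intro h5
          apply htt
          apply Subtype.ext
          ext i
          have h6 := congrFun (toLex.injective h5) i
          exact_mod_cast h6.symm
        have h5 := t2b_lex (t2b_D e0) _ _ (lt_of_le_of_ne h3 h4)
        have h6 : (t2b_D e0 + (fun i => ((t.1 i : ℕ) : ℤ)) - fun i => ((t'.1 i : ℕ) : ℤ)) =
            t2b_D (Finsupp.sumElim (a + t.1) (b + t'.1)) := by
          funext i
          rw [← he0']
          simp only [t2b_D, Pi.add_apply, Pi.sub_apply, Finsupp.sumElim_inl, Finsupp.sumElim_inr,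
            Finsupp.add_apply]
          push_cast
          ring
        rw [h6] at h5
        have h7 : coeff (Finsupp.sumElim (a + t.1) (b + t'.1)) P = 0 := by
          by_contra h8
          exact absurd h5 (not_lt_of_ge (hmax _ (mem_support_iff.2 h8)))
        rw [h7, mul_zero]
    · intro h
      exact absurd (Finset.mem_univ _) h

end H402.CE
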