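import Pool.Agent.H402R2.CE.Stmts

open MvPolynomial

namespace H402.CE

theorem t3_aeval {σ : Type*} (v : σ → ℂ) (p : MvPolynomial σ ℂ) : aeval v p = eval v p := rfl

theorem t3 : T3 := by
  intro N P hP
  set f : Fin N ⊕ Fin N → MvPolynomial (Fin N ⊕ Fin N) ℂ :=
    Sum.elim (fun k => X (Sum.inl k) + C Complex.I * X (Sum.inr k))
      (fun k => X (Sum.inl k) - C Complex.I * X (Sum.inr k)) with hf
  set g : Fin N ⊕ Fin N → MvPolynomial (Fin N ⊕ Fin N) ℂ :=
    Sum.elim (fun k => C (1 / 2) * (X (Sum.inl k) + X (Sum.inr k)))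
      (fun k => C (1 / (2 * Complex.I)) * (X (Sum.inl k) - X (Sum.inr k))) with hg
  have hQ : aeval f P = 0 := by
    refine funext_set (fun _ => Set.range ((↑) : ℝ → ℂ))
      (fun _ => Set.infinite_range_of_injective Complex.ofReal_injective) ?_
    intro v hv
    rw [map_zero, ← t3_aeval, comp_aeval_apply, t3_aeval]
    have hre : ∀ i, (starRingEnd ℂ) (v i) = v i := by
      intro i
      obtain ⟨x, hx⟩ := hv i (Set.mem_univ i)
      rw [← hx, Complex.conj_ofReal]
    have e : (fun i => aeval v (f i)) = Sum.elim (fun k => v (Sum.inl k) + Complex.I * v (Sum.inr k))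
        (fun k => (starRingEnd ℂ) (v (Sum.inl k) + Complex.I * v (Sum.inr k))) := by
      funext i
      rcases i with k | k
      · simp [hf]
      · simp [hf, hre, sub_eq_add_neg]
    rw [e]
    exact hP _
  have hback : aeval g (aeval f P) = P := by
    rw [comp_aeval_apply]
    have e : (fun i => aeval g (f i)) = X := by
      funext i
      have h2 : (C (1 / 2 : ℂ) : MvPolynomial (Fin N ⊕ Fin N) ℂ) * 2 = 1 := by
        rw [show (2 : MvPolynomial (Fin N ⊕ Fin N) ℂ) = C 2 from rfl, ← C_mul]
        norm_num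
      have h3 : (C Complex.I : MvPolynomial (Fin N ⊕ Fin N) ℂ) * C (1 / (2 * Complex.I)) =
          C (1 / 2) := by
        rw [← C_mul]
        congr 1
        field_simp
      rcases i with k | k
      · simp only [hf, hg, Sum.elim_inl, map_add, map_mul, aeval_X, aeval_C, Sum.elim_inr,
          algebraMap_eq]
        linear_combination (X (Sum.inl k) - X (Sum.inr k)) * h3 + X (Sum.inl k) * h2
      · simp only [hf, hg, Sum.elim_inl, map_sub, map_mul, aeval_X, aeval_C, Sum.elim_inr,
          algebraMap_eq]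
        linear_combination -(X (Sum.inl k) - X (Sum.inr k)) * h3 + X (Sum.inr k) * h2
    rw [e]
    exact aeval_X_left_apply P
  rw [← hback, hQ, map_zero]

end H402.CE
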