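import Pool.Agent.H402R2.CE.Stmts

/-! T4: closure under addition (helper844). -/

open MvPolynomial

namespace H402.CE

theorem t4_indep {n m₁ m₂ : ℕ} (i0 : Fin n) (p : Fin m₁ → MvPolynomial (Fin n) ℂ)
    (p' : Fin m₂ → MvPolynomial (Fin n) ℂ) (K : ℕ) (hK : ∀ j, degreeOf i0 (p j) < K)
    (hp : LinearIndependent ℂ p) (hp' : LinearIndependent ℂ p') :
    LinearIndependent ℂ (Sum.elim p (fun j => X i0 ^ K * p' j)) := by
  rw [Fintype.linearIndependent_iff] at hp hp' ⊢
  intro c hc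
  rw [Fintype.sum_sum_type] at hc
  simp only [Sum.elim_inl, Sum.elim_inr] at hc
  have e1 : ∑ j, c (Sum.inr j) • (X i0 ^ K * p' j) =
      X i0 ^ K * ∑ j, c (Sum.inr j) • p' j := by
    rw [Finset.mul_sum]
    refine Finset.sum_congr rfl fun j _ => ?_
    rw [mul_smul_comm]
  rw [e1] at hc
  have hf : ∑ j, c (Sum.inl j) • p j = 0 := by
    ext m
    rw [coeff_zero]
    by_cases hm : K ≤ m i0
    · rw [coeff_sum]
      refine Finset.sum_eq_zero fun j _ => ?_
      rw [coeff_smul]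
      have h1 : coeff m (p j) = 0 := by
        by_contra h
        have h2 := monomial_le_degreeOf i0 (mem_support_iff.2 h)
        have h3 := hK j
        omega
      rw [h1, smul_zero]
    · have h2 := congrArg (coeff m) hc
      rw [coeff_add, coeff_zero, X_pow_eq_monomial, coeff_monomial_mul', if_neg, add_zero] at h2
      · exact h2
      · rw [Finsupp.single_le_iff]
        exact hm
  rw [hf, zero_add] at hc
  have hg : ∑ j, c (Sum.inr j) • p' j = 0 := by
    rcases mul_eq_zero.1 hc with h | h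
    · exact absurd h (pow_ne_zero _ (X_ne_zero i0))
    · exact h
  intro i
  rcases i with j | j
  · exact hp _ hf j
  · exact hp' _ hg j

theorem t4 : T4 := by
  rintro d n m₁ m₂ hn ⟨p, hp, A, hA⟩ ⟨p', hp', A', hA'⟩
  let i0 : Fin n := ⟨0, hn⟩
  let K : ℕ := (Finset.univ.sup fun j => degreeOf i0 (p j)) + 1
  have hK : ∀ j, degreeOf i0 (p j) < K := by
    intro j
    have h1 : degreeOf i0 (p j) ≤ Finset.univ.sup fun j => degreeOf i0 (p j) :=
      Finset.le_sup (f := fun j => degreeOf i0 (p j)) (Finset.mem_univ j)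
    exact Nat.lt_succ_of_le h1
  have hind := t4_indep i0 p p' K hK hp hp'
  refine ⟨Sum.elim p (fun j => X i0 ^ K * p' j) ∘ finSumFinEquiv.symm,
    hind.comp _ finSumFinEquiv.symm.injective,
    A + (X (Sum.inl i0) * X (Sum.inr i0)) ^ K * A', fun z => ?_⟩
  have h1 : ∑ j : Fin (m₁ + m₂), ‖eval z ((Sum.elim p (fun j => X i0 ^ K * p' j) ∘
      finSumFinEquiv.symm) j)‖ ^ 2 =
      (∑ j, ‖eval z (p j)‖ ^ 2) + (‖z i0‖ ^ 2) ^ K * ∑ j, ‖eval z (p' j)‖ ^ 2 := by
    have e0 : ∑ j : Fin (m₁ + m₂), ‖eval z ((Sum.elim p (fun j => X i0 ^ K * p' j) ∘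
        finSumFinEquiv.symm) j)‖ ^ 2 =
        ∑ x : Fin m₁ ⊕ Fin m₂, ‖eval z (Sum.elim p (fun j => X i0 ^ K * p' j) x)‖ ^ 2 :=
      Equiv.sum_comp finSumFinEquiv.symm
        (fun x => ‖eval z (Sum.elim p (fun j => X i0 ^ K * p' j) x)‖ ^ 2)
    rw [e0, Fintype.sum_sum_type]
    simp only [Sum.elim_inl, Sum.elim_inr]
    congr 1
    rw [Finset.mul_sum]
    refine Finset.sum_congr rfl fun j _ => ?_
    rw [eval_mul, eval_pow, eval_X, norm_mul, norm_pow, mul_pow]
    ring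
  rw [h1, Complex.ofReal_add, Complex.ofReal_mul, hA, hA']
  have h2 : (((‖z i0‖ ^ 2) ^ K : ℝ) : ℂ) = (z i0 * (starRingEnd ℂ) (z i0)) ^ K := by
    rw [Complex.mul_conj, Complex.normSq_eq_norm_sq]
    push_cast
    rfl
  rw [h2, eval_add, eval_mul, eval_pow, eval_mul, eval_X, eval_X]
  simp only [Sum.elim_inl, Sum.elim_inr]
  ring

end H402.CE
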