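import Pool.Agent.H402R2.CE.Stmts

/-! T5: diagonal sums of squares. -/

open MvPolynomial

namespace H402.CE

namespace T5x

/-- the polynomial `g(|z_1|^2, ..., |z_n|^2)` -/
noncomputable def dg {n : ℕ} (g : MvPolynomial (Fin n) ℝ) : MvPolynomial (Fin n ⊕ Fin n) ℂ :=
  aeval (fun k => X (Sum.inl k) * X (Sum.inr k)) (map (algebraMap ℝ ℂ) g)

theorem eval_dg {n : ℕ} (z : Fin n → ℂ) (g : MvPolynomial (Fin n) ℝ) :
    eval (Sum.elim z (fun k => (starRingEnd ℂ) (z k))) (dg g) =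
      ((eval (fun k => ‖z k‖ ^ 2) g : ℝ) : ℂ) := by
  unfold dg
  induction g using MvPolynomial.induction_on with
  | C a => simp
  | add p q hp hq => 
    rw [map_add, map_add, map_add, hp, hq, map_add, Complex.ofReal_add]
  | mul_X p i hp =>
    rw [map_mul, map_mul, map_mul, hp, map_mul, Complex.ofReal_mul]
    congr 1
    simp only [map_X, aeval_X, map_mul, eval_X, Sum.elim_inl, Sum.elim_inr]
    rw [Complex.mul_conj, Complex.normSq_eq_norm_sq]

theorem norm_mon {n : ℕ} (z : Fin n → ℂ) (α : Fin n →₀ ℕ) (c : ℝ) (hc : 0 ≤ c) :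
    ‖eval z (monomial α ((Real.sqrt c : ℝ) : ℂ))‖ ^ 2 = c * ∏ i, (‖z i‖ ^ 2) ^ α i := by
  rw [eval_monomial, Finsupp.prod_fintype _ _ (by intro i; simp), norm_mul, norm_prod, mul_pow,
    ← Finset.prod_pow, Complex.norm_real, Real.norm_eq_abs, sq_abs, Real.sq_sqrt hc]
  congr 1
  refine Finset.prod_congr rfl fun i _ => ?_
  rw [norm_pow, ← pow_mul, ← pow_mul, mul_comm]

end T5x

open T5x in
theorem t5 : H402.CE.T5 := by
  intro d n f hf hdvd
  obtain ⟨g, hg⟩ := hdvd
  obtain ⟨e, -⟩ : ∃ e : f.support ≃ Fin f.support.card, e = f.support.equivFin := ⟨_, rfl⟩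
  refine ⟨fun j => monomial (e.symm j : Fin n →₀ ℕ)
    ((Real.sqrt (coeff (e.symm j : Fin n →₀ ℕ) f) : ℝ) : ℂ), ?_, dg g, ?_⟩
  · rw [Fintype.linearIndependent_iff]
    intro c hc i
    have h := congrArg (coeff (e.symm i : Fin n →₀ ℕ)) hc
    rw [coeff_sum, coeff_zero, Finset.sum_eq_single i] at h
    · rw [coeff_smul, coeff_monomial, if_pos rfl, smul_eq_mul, mul_eq_zero] at h
      refine h.resolve_right ?_
      rw [Complex.ofReal_eq_zero, Real.sqrt_eq_zero (hf _)]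
      exact mem_support_iff.1 (e.symm i).2
    · intro j _ hj
      rw [coeff_smul, coeff_monomial, if_neg, smul_zero]
      intro h'
      exact hj (e.symm.injective (Subtype.ext h'))
    · intro h'
      exact absurd (Finset.mem_univ _) h'
  · intro z
    rw [eval_dg]
    have h1 : (∑ j, ‖eval z ((fun j => monomial (e.symm j : Fin n →₀ ℕ)
        ((Real.sqrt (coeff (e.symm j : Fin n →₀ ℕ) f) : ℝ) : ℂ)) j)‖ ^ 2 : ℝ) =
        eval (fun k => ‖z k‖ ^ 2) f := by
      rw [eval_eq']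
      have h2 : ∀ j, ‖eval z ((fun j => monomial (e.symm j : Fin n →₀ ℕ)
        ((Real.sqrt (coeff (e.symm j : Fin n →₀ ℕ) f) : ℝ) : ℂ)) j)‖ ^ 2 =
        (fun x : f.support => coeff (x : Fin n →₀ ℕ) f *
          ∏ i, (‖z i‖ ^ 2) ^ (x : Fin n →₀ ℕ) i) (e.symm j) := by
        intro j
        exact norm_mon z _ _ (hf _)
      refine (Finset.sum_congr rfl (fun j _ => h2 j)).trans ?_
      refine (Equiv.sum_comp e.symm (fun x : f.support => coeff (x : Fin n →₀ ℕ) f *
          ∏ i, (‖z i‖ ^ 2) ^ (x : Fin n →₀ ℕ) i)).trans ?_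
      exact Finset.sum_coe_sort f.support (fun x : Fin n →₀ ℕ => coeff x f *
          ∏ i, (‖z i‖ ^ 2) ^ x i)
    rw [h1, hg, map_mul, map_pow, map_sum]
    simp only [eval_X]
    push_cast
    rfl

end H402.CE
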