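import Pool.Agent.H402R2.CE.Stmts

open MvPolynomial

namespace H402.CE

theorem coeff_pow_pos {n d : ℕ} {α : Fin n →₀ ℕ} (h : (Finset.univ.sum α) = d) :
    0 < coeff α ((∑ i, X i : MvPolynomial (Fin n) ℝ) ^ d) := by
  rw [coeff_sum_X_pow_of_fintype, if_pos]
  · have h1 : 0 < α.multinomial := Nat.multinomial_pos _ _
    exact_mod_cast h1
  · rw [← h]
    exact Finsupp.sum_fintype _ _ fun _ => rfl

theorem coeff_pow_zero {n d : ℕ} {α : Fin n →₀ ℕ} (h : (Finset.univ.sum α) ≠ d) :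
    coeff α ((∑ i, X i : MvPolynomial (Fin n) ℝ) ^ d) = 0 := by
  have h1 : ¬ (α.sum (fun _ m => m) = d) := by
    intro h'
    rw [Finsupp.sum_fintype _ _ fun _ => rfl] at h'
    exact h h'
  rw [coeff_sum_X_pow_of_fintype, if_neg h1]
  exact Nat.cast_zero

theorem coeff_pow_nonneg (d n : ℕ) (α : Fin n →₀ ℕ) :
    0 ≤ coeff α ((∑ i, X i : MvPolynomial (Fin n) ℝ) ^ d) := by
  by_cases h : (Finset.univ.sum α) = d
  · exact (coeff_pow_pos h).le
  · exact (coeff_pow_zero h).ge

theorem supp_pow (d n : ℕ) : ((∑ i, X i : MvPolynomial (Fin n) ℝ) ^ d).support =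
    Finset.finsuppAntidiag Finset.univ d := by
  ext α
  rw [mem_support_iff, Finset.mem_finsuppAntidiag]
  constructor
  · intro h
    refine ⟨?_, Finset.subset_univ _⟩
    by_contra h'
    exact h (coeff_pow_zero h')
  · intro h
    exact (coeff_pow_pos h.1).ne'

theorem t6a (h : T5) : T6a := by
  intro d n _
  have h1 := h d n ((∑ i, X i) ^ d) (coeff_pow_nonneg d n) dvd_rfl
  rw [supp_pow, Finset.card_finsuppAntidiag_nat_eq_choose, Finset.card_univ, Fintype.card_fin] at h1
  exact h1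

end H402.CE
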