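import Pool.Agent.H402R2.CE.Stmts

/-!
# Task T6b
-/

open MvPolynomial

namespace H402.CE

namespace T6bAux

lemma mem_anti (n d : ℕ) (m : Fin n →₀ ℕ) :
    m ∈ Finset.finsuppAntidiag (Finset.univ : Finset (Fin n)) d ↔ m.sum (fun _ x => x) = d := by
  rw [Finset.mem_finsuppAntidiag]
  rw [Finsupp.sum_fintype _ _ (fun _ => rfl)]
  simp

lemma coeff_pow (n d : ℕ) (m : Fin n →₀ ℕ) :
    coeff m ((∑ i, X i : MvPolynomial (Fin n) ℝ) ^ d) =
      if m.sum (fun _ x => x) = d then (m.multinomial : ℝ) else 0 := by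
  rw [coeff_sum_X_pow_of_fintype]
  split_ifs <;> simp

lemma multinomial_pos (n : ℕ) (m : Fin n →₀ ℕ) : 0 < m.multinomial := by
  rw [Finsupp.multinomial_eq]
  exact Nat.multinomial_pos _ _

lemma coeff_pow_nonneg (n d : ℕ) (m : Fin n →₀ ℕ) :
    0 ≤ coeff m ((∑ i, X i : MvPolynomial (Fin n) ℝ) ^ d) := by
  rw [coeff_pow]
  split_ifs
  · exact Nat.cast_nonneg _
  · exact le_rfl

lemma coeff_pow_ne (n d : ℕ) (m : Fin n →₀ ℕ) :
    coeff m ((∑ i, X i : MvPolynomial (Fin n) ℝ) ^ d) ≠ 0 ↔ m.sum (fun _ x => x) = d := by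
  rw [coeff_pow]
  constructor
  · intro h
    by_contra h'
    rw [if_neg h'] at h
    exact h rfl
  · intro h
    rw [if_pos h]
    exact_mod_cast (multinomial_pos n m).ne'

lemma coeff_Xk (n k : ℕ) (i : Fin n) (p : MvPolynomial (Fin n) ℝ) (m : Fin n →₀ ℕ) :
    coeff m (X i ^ k * p) = if k ≤ m i then coeff (m - Finsupp.single i k) p else 0 := by
  rw [X_pow_eq_monomial, coeff_monomial_mul']
  have : Finsupp.single i k ≤ m ↔ k ≤ m i := by
    rw [Finsupp.single_le_iff]
  simp [this]

lemma sum_eq (n : ℕ) (m : Fin n →₀ ℕ) : m.sum (fun _ x => x) = ∑ i, m i :=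
  Finsupp.sum_fintype _ _ (fun _ => rfl)

end T6bAux

open T6bAux in
theorem t6b (h : H402.CE.T5) : H402.CE.T6b := by
  classical
  intro d n j hn hj
  obtain ⟨n, rfl⟩ : ∃ n', n = n' + 2 := ⟨n - 2, by omega⟩
  set k := d - j with hk
  have hk1 : 1 ≤ k := by omega
  set s : MvPolynomial (Fin (n + 2)) ℝ := ∑ i, X i with hs
  set f : MvPolynomial (Fin (n + 2)) ℝ := (X 0 ^ k + X 1 ^ k) * s ^ d with hf
  set anti : ℕ → Finset (Fin (n + 2) →₀ ℕ) :=
    fun e => Finset.finsuppAntidiag (Finset.univ : Finset (Fin (n + 2))) e with hanti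
  have h01 : (0 : Fin (n + 2)) ≠ 1 := by
    intro h
    have := congrArg Fin.val h
    simp at this
  have hcf : ∀ m, coeff m f = coeff m (X 0 ^ k * s ^ d) + coeff m (X 1 ^ k * s ^ d) := by
    intro m
    rw [hf, add_mul, coeff_add]
  have hnn : ∀ (i : Fin (n + 2)) m, 0 ≤ coeff m (X i ^ k * s ^ d) := by
    intro i m
    rw [coeff_Xk]
    split_ifs
    · exact coeff_pow_nonneg _ _ _
    · exact le_rfl
  have hnn' : ∀ m, 0 ≤ coeff m f := fun m => by
    rw [hcf]
    exact add_nonneg (hnn 0 m) (hnn 1 m)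
  set A : Fin (n + 2) → Finset (Fin (n + 2) →₀ ℕ) :=
    fun i => (anti d).image (fun m => m + Finsupp.single i k) with hA
  have hmemA : ∀ (i : Fin (n + 2)) m, m ∈ A i ↔ k ≤ m i ∧ ∑ l, m l = d + k := by
    intro i m
    rw [hA]
    simp only [Finset.mem_image, hanti, mem_anti, sum_eq]
    constructor
    · rintro ⟨m', hm', rfl⟩
      refine ⟨by simp, ?_⟩
      simp only [Finsupp.add_apply, Finset.sum_add_distrib, hm']
      simp [Finsupp.single_apply]
    · rintro ⟨h1, h2⟩
      refine ⟨m - Finsupp.single i k, ?_, ?_⟩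
      · have h3 : m - Finsupp.single i k + Finsupp.single i k = m :=
          tsub_add_cancel_of_le (Finsupp.single_le_iff.2 h1)
        have h4 : ∑ l, (m - Finsupp.single i k) l + ∑ l, (Finsupp.single i k) l = d + k := by
          rw [← Finset.sum_add_distrib, ← h2]
          exact Finset.sum_congr rfl fun l _ => by
            rw [← Finsupp.add_apply, h3]
        have h5 : ∑ l, (Finsupp.single i k : Fin (n + 2) →₀ ℕ) l = k := by
          simp [Finsupp.single_apply]
        omega
      · exact tsub_add_cancel_of_le (Finsupp.single_le_iff.2 h1)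
  have hneA : ∀ (i : Fin (n + 2)) m, coeff m (X i ^ k * s ^ d) ≠ 0 ↔ m ∈ A i := by
    intro i m
    rw [coeff_Xk]
    constructor
    · intro h
      by_cases h1 : k ≤ m i
      · rw [if_pos h1] at h
        rw [hA]
        refine Finset.mem_image.2 ⟨m - Finsupp.single i k, ?_, ?_⟩
        · rw [hanti]
          exact (mem_anti _ _ _).2 ((coeff_pow_ne _ _ _).1 h)
        · exact tsub_add_cancel_of_le (Finsupp.single_le_iff.2 h1)
      · rw [if_neg h1] at h
        exact absurd rfl h
    · intro h
      rw [hA] at h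
      obtain ⟨m', hm', rfl⟩ := Finset.mem_image.1 h
      rw [if_pos (by simp), add_tsub_cancel_right]
      rw [hanti] at hm'
      exact (coeff_pow_ne _ _ _).2 ((mem_anti _ _ _).1 hm')
  have hsupp : f.support = A 0 ∪ A 1 := by
    ext m
    rw [mem_support_iff, Finset.mem_union, ← hneA, ← hneA, hcf]
    constructor
    · intro h
      by_contra h'
      push Not at h'
      rw [h'.1, h'.2, add_zero] at h
      exact h rfl
    · rintro (h | h)
      · have := lt_of_le_of_ne (hnn 0 m) (Ne.symm h)
        exact (add_pos_of_pos_of_nonneg this (hnn 1 m)).ne'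
      · have := lt_of_le_of_ne (hnn 1 m) (Ne.symm h)
        exact (add_pos_of_nonneg_of_pos (hnn 0 m) this).ne'
  have hinter : A 0 ∩ A 1 = (anti j).image
      (fun m => m + (Finsupp.single 0 k + Finsupp.single 1 k)) := by
    ext m
    rw [Finset.mem_inter, hmemA, hmemA]
    simp only [Finset.mem_image, hanti, mem_anti, sum_eq]
    constructor
    · rintro ⟨⟨h1, h2⟩, h3, _⟩
      have hle : (Finsupp.single 0 k + Finsupp.single 1 k : Fin (n + 2) →₀ ℕ) ≤ m := by
        intro l
        rw [Finsupp.add_apply, Finsupp.single_apply, Finsupp.single_apply]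
        split_ifs with h4 h5 h5
        · exact absurd (h4.trans h5.symm) h01
        · subst h4
          simpa using h1
        · subst h5
          simpa using h3
        · simp
      refine ⟨m - (Finsupp.single 0 k + Finsupp.single 1 k), ?_, tsub_add_cancel_of_le hle⟩
      have h3' : m - (Finsupp.single 0 k + Finsupp.single 1 k) +
          (Finsupp.single 0 k + Finsupp.single 1 k) = m := tsub_add_cancel_of_le hle
      have h4 : ∑ l, (m - (Finsupp.single 0 k + Finsupp.single 1 k) : Fin (n + 2) →₀ ℕ) l +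
          ∑ l, (Finsupp.single 0 k + Finsupp.single 1 k : Fin (n + 2) →₀ ℕ) l = d + k := by
        rw [← Finset.sum_add_distrib, ← h2]
        exact Finset.sum_congr rfl fun l _ => by
          rw [← Finsupp.add_apply, h3']
      have h5 : ∑ l, (Finsupp.single 0 k + Finsupp.single 1 k : Fin (n + 2) →₀ ℕ) l = k + k := by
        simp [Finsupp.single_apply, Finset.sum_add_distrib]
      omega
    · rintro ⟨m', hm', rfl⟩
      have h5 : ∑ l, (m' + (Finsupp.single 0 k + Finsupp.single 1 k) : Fin (n + 2) →₀ ℕ) l =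
          j + (k + k) := by
        rw [← hm']
        simp [Finsupp.single_apply, Finset.sum_add_distrib]
      refine ⟨⟨?_, ?_⟩, ?_, ?_⟩
      · simp only [Finsupp.add_apply, Finsupp.single_eq_same]
        omega
      · rw [h5]
        omega
      · simp only [Finsupp.add_apply, Finsupp.single_eq_same]
        omega
      · rw [h5]
        omega
  have hcard : ∀ (e : ℕ) (c : Fin (n + 2) →₀ ℕ),
      ((anti e).image (fun m => m + c)).card = (n + 2 + e - 1).choose e := by
    intro e c
    rw [Finset.card_image_of_injective _ (add_left_injective c), hanti]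
    rw [Finset.card_finsuppAntidiag_nat_eq_choose]
    simp
  have hc : f.support.card = 2 * (n + 2 + d - 1).choose d - (n + 2 + j - 1).choose j := by
    rw [hsupp, Finset.card_union, hinter, hcard]
    rw [hA]
    simp only
    rw [hcard, hcard]
    omega
  rw [← hc]
  exact h d (n + 2) f hnn' ⟨X 0 ^ k + X 1 ^ k, by rw [hf, mul_comm]⟩

end H402.CE
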