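import Pool.Agent.H402R2.CE.Fin
import Pool.Agent.H402R2.CE.M1a
import Pool.Agent.H402R2.CE.T1
import Pool.Agent.H402R2.CE.T2a
import Pool.Agent.H402R2.CE.T2b
import Pool.Agent.H402R2.CE.T2
import Pool.Agent.H402R2.CE.T3
import Pool.Agent.H402R2.CE.M3b
import Pool.Agent.H402R2.CE.T4
import Pool.Agent.H402R2.CE.T5
import Pool.Agent.H402R2.CE.T6a
import Pool.Agent.H402R2.CE.T6b
import Pool.Agent.H402R2.CE.M7a

namespace H402.CE

theorem all3b : T3b := t3b (t2 (t1 t1a) t2a t2b) t3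
theorem all4 : T4 := t4
theorem all6a : T6a := t6a t5
theorem all6b : T6b := t6b t5
theorem all7 : T7a := t7a

end H402.CE
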