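import Pool.Agent.H402R2.CE.All

open MvPolynomial

namespace H402.CE

theorem all5 : T5 := t5

theorem coeff_sum_monomial_one {ι σ : Type*} [DecidableEq σ] (s : Finset ι) (φ : ι → σ →₀ ℕ)
    (α : σ →₀ ℕ) : coeff α (∑ x ∈ s, monomial (φ x) (1 : ℝ)) =
      ((s.filter (fun x => φ x = α)).card : ℝ) := by
  rw [coeff_sum, Finset.card_filter]
  push_cast
  refine Finset.sum_congr rfl fun x _ => ?_
  rw [coeff_monomial]

theorem support_sum_monomial_one {ι σ : Type*} [DecidableEq σ] (s : Finset ι)
    (φ : ι → σ →₀ ℕ) : (∑ x ∈ s, monomial (φ x) (1 : ℝ)).support = s.image φ := by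
  ext α
  rw [mem_support_iff, coeff_sum_monomial_one, Finset.mem_image]
  simp only [ne_eq, Nat.cast_eq_zero, Finset.card_eq_zero, Finset.filter_eq_empty_iff]
  push Not
  rfl

/-- the exponent of `X_0^(c-i) X_1^i` -/
noncomputable def mu (n c i : ℕ) : Fin (n + 2) →₀ ℕ :=
  Finsupp.single 0 (c - i) + Finsupp.single 1 i

theorem chain (n c : ℕ) : (c + 1) * (n + 2) - c ∈ S 1 (n + 2) := by
  classical
  set s : Finset (ℕ × Fin (n + 2)) := Finset.range (c + 1) ×ˢ Finset.univ with hs
  set φ : ℕ × Fin (n + 2) → (Fin (n + 2) →₀ ℕ) := fun x => mu n c x.1 + Finsupp.single x.2 1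
    with hφ
  have hf : (∑ x ∈ s, monomial (φ x) (1 : ℝ)) =
      (∑ i, X i) ^ 1 * (∑ i ∈ Finset.range (c + 1), monomial (mu n c i) (1 : ℝ)) := by
    rw [pow_one, mul_comm, Finset.sum_mul_sum, hs, Finset.sum_product]
    refine Finset.sum_congr rfl fun i _ => Finset.sum_congr rfl fun k _ => ?_
    rw [hφ, X, monomial_mul, mul_one]
  have hmem := all5 1 (n + 2) (∑ x ∈ s, monomial (φ x) (1 : ℝ))
    (fun α => by rw [coeff_sum_monomial_one]; positivity) (by rw [hf]; exact dvd_mul_right _ _)
  rw [support_sum_monomial_one] at hmem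
  have hcard : (s.image φ).card = (c + 1) * (n + 2) - c := by
    set t : Finset (ℕ × Fin (n + 2)) := (Finset.range c).image (fun i => (i, (1 : Fin (n + 2))))
      with ht
    have hts : t ⊆ s := by
      intro x hx
      rw [ht, Finset.mem_image] at hx
      obtain ⟨i, hi, rfl⟩ := hx
      rw [hs, Finset.mem_product]
      exact ⟨Finset.mem_range.2 (by have := Finset.mem_range.1 hi; omega), Finset.mem_univ _⟩
    have htc : t.card = c := by
      rw [ht, Finset.card_image_of_injective _ (fun a b h => (Prod.mk.inj h).1),
        Finset.card_range]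
    have him : s.image φ = (s \ t).image φ := by
      refine le_antisymm ?_ (Finset.image_subset_image Finset.sdiff_subset)
      intro α hα
      rw [Finset.mem_image] at hα
      obtain ⟨x, hx, rfl⟩ := hα
      by_cases hxt : x ∈ t
      · rw [ht, Finset.mem_image] at hxt
        obtain ⟨i, hi, rfl⟩ := hxt
        have hi' := Finset.mem_range.1 hi
        rw [Finset.mem_image]
        refine ⟨(i + 1, 0), ?_, ?_⟩
        · rw [Finset.mem_sdiff]
          constructor
          · rw [hs, Finset.mem_product]
            exact ⟨Finset.mem_range.2 (by simpa using hi'), Finset.mem_univ _⟩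
          · rw [ht, Finset.mem_image]
            rintro ⟨j, _, hj⟩
            have := (Prod.mk.inj hj).2
            exact absurd this (by simp)
        · simp only [hφ, mu]
          ext k
          simp only [Finsupp.add_apply, Finsupp.single_apply]
          split_ifs <;> omega
      · exact Finset.mem_image_of_mem _ (Finset.mem_sdiff.2 ⟨hx, hxt⟩)
    rw [him, Finset.card_image_of_injOn, Finset.card_sdiff_of_subset hts, htc, hs,
      Finset.card_product, Finset.card_range, Finset.card_univ, Fintype.card_fin]
    rintro ⟨i, k⟩ hik ⟨j, l⟩ hjl h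
    rw [Finset.mem_coe, Finset.mem_sdiff] at hik hjl
    have hi : i ≤ c := by
      have := (Finset.mem_product.1 hik.1).1
      exact Nat.lt_succ_iff.1 (Finset.mem_range.1 this)
    have hj : j ≤ c := by
      have := (Finset.mem_product.1 hjl.1).1
      exact Nat.lt_succ_iff.1 (Finset.mem_range.1 this)
    have hk1 : k = 1 → i = c := by
      rintro rfl
      by_contra hne
      exact hik.2 (Finset.mem_image.2 ⟨i, Finset.mem_range.2 (by omega), rfl⟩)
    have hl1 : l = 1 → j = c := by
      rintro rfl
      by_contra hne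
      exact hjl.2 (Finset.mem_image.2 ⟨j, Finset.mem_range.2 (by omega), rfl⟩)
    simp only [hφ, mu] at h
    have hv : ∀ v : Fin (n + 2), (if (0 : Fin (n + 2)) = v then c - i else 0) +
        (if (1 : Fin (n + 2)) = v then i else 0) + (if k = v then 1 else 0) =
        (if (0 : Fin (n + 2)) = v then c - j else 0) +
        (if (1 : Fin (n + 2)) = v then j else 0) + (if l = v then 1 else 0) := by
      intro v
      have := DFunLike.congr_fun h v
      simpa only [Finsupp.add_apply, Finsupp.single_apply] using this
    have h01 : (0 : Fin (n + 2)) ≠ 1 := by simp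
    have e0 := hv 0
    have e1 := hv 1
    rw [if_pos rfl, if_neg h01.symm, if_pos rfl, if_neg h01.symm] at e0
    rw [if_neg h01, if_pos rfl, if_neg h01, if_pos rfl] at e1
    by_cases hk0 : k = 0
    · subst hk0
      rw [if_pos rfl] at e0
      rw [if_neg h01] at e1
      by_cases hl0 : l = 0
      · subst hl0
        rw [if_neg h01] at e1
        have : i = j := by omega
        rw [this]
      · rw [if_neg hl0] at e0
        exfalso
        by_cases hl : l = 1
        · have := hl1 hl
          rw [if_pos hl] at e1
          omega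
        · rw [if_neg hl] at e1
          omega
    · rw [if_neg hk0] at e0
      by_cases hl0 : l = 0
      · subst hl0
        rw [if_pos rfl] at e0
        rw [if_neg h01] at e1
        exfalso
        by_cases hk : k = 1
        · have := hk1 hk
          rw [if_pos hk] at e1
          omega
        · rw [if_neg hk] at e1
          omega
      · rw [if_neg hl0] at e0
        have hij : i = j := by omega
        subst hij
        have hkl : k = l := by
          have := hv k
          rw [if_pos rfl] at this
          by_contra hne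
          rw [if_neg (Ne.symm hne)] at this
          omega
        rw [hkl]
  rwa [hcard] at hmem

/-- `S_1(n)` contains `k n - c` for `0 ≤ c < k`. -/
theorem chain_mem (n k c : ℕ) (hn : 2 ≤ n) (hc : c < k) : k * n - c ∈ S 1 n := by
  obtain ⟨n, rfl⟩ : ∃ n', n = n' + 2 := ⟨n - 2, by omega⟩
  have h1 := chain n c
  have hN : n + 2 ∈ S 1 (n + 2) := by
    have := all6a 1 (n + 2) (by omega)
    simpa using this
  have h2 := mul_mem all4 (by omega) hN (k - (c + 1))
  have h3 := all4 1 (n + 2) _ _ (by omega) h1 h2
  have he : (c + 1) * (n + 2) - c + (k - (c + 1)) * (n + 2) = k * (n + 2) - c := by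
    obtain ⟨e, rfl⟩ : ∃ e, k = c + 1 + e := ⟨k - (c + 1), by omega⟩
    rw [Nat.add_sub_cancel_left, add_mul (c + 1) e]
    have : c ≤ (c + 1) * (n + 2) := by nlinarith
    omega
  rwa [he] at h3

theorem conductor_one (n m : ℕ) (hn : 2 ≤ n) (hm : (n - 1) ^ 2 < m) : m ∈ S 1 n := by
  obtain ⟨q, r, hr, hqr⟩ : ∃ q r, r < n ∧ m + r = q * n := by
    refine ⟨(m + n - 1) / n, n - 1 - (m + n - 1) % n, ?_, ?_⟩
    · omega
    · have h1 := Nat.div_add_mod' (m + n - 1) n
      have h2 : (m + n - 1) % n < n := Nat.mod_lt _ (by omega)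
      omega
  by_cases hrq : r < q
  · have := chain_mem n q r hn hrq
    rwa [show q * n - r = m by omega] at this
  · exfalso
    obtain ⟨a, rfl⟩ : ∃ a, n = a + 1 := ⟨n - 1, by omega⟩
    simp only [Nat.add_sub_cancel] at hm
    have h1 : q ≤ a := by omega
    have h2 : m + q ≤ q * (a + 1) := by omega
    have h3 : m ≤ q * a := by
      rw [Nat.mul_succ] at h2
      omega
    have h4 : q * a ≤ a * a := Nat.mul_le_mul_right a h1
    rw [pow_two] at hm
    omega

end H402.CE
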