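import Pool.Agent.H402R2.CE.Stmts

open MvPolynomial

namespace H402.CE

theorem zero_mem (d n : ℕ) : 0 ∈ S d n := by
  refine ⟨fun j => j.elim0, linearIndependent_empty_type, 0, fun z => ?_⟩
  simp

theorem mul_mem (h4 : T4) {d n m : ℕ} (hn : 1 ≤ n) (hm : m ∈ S d n) (k : ℕ) :
    k * m ∈ S d n := by
  induction k with
  | zero => simpa using zero_mem d n
  | succ k ih =>
    rw [Nat.succ_mul]
    exact h4 d n _ _ hn ih hm

theorem lower_fun (h3 : T3b) {n d m : ℕ} (hn : 1 ≤ n) (p q : Fin m → MvPolynomial (Fin n) ℂ)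
    (A : MvPolynomial (Fin n ⊕ Fin n) ℂ)
    (h : ∀ z : Fin n → ℂ, ∑ j, eval z (p j) * (starRingEnd ℂ) (eval z (q j)) =
      ((∑ k, ‖z k‖ ^ 2 : ℝ) : ℂ) ^ d * eval (Sum.elim z (fun k => (starRingEnd ℂ) (z k))) A)
    (hne : ∃ z : Fin n → ℂ, ∑ j, eval z (p j) * (starRingEnd ℂ) (eval z (q j)) ≠ 0) :
    (n + d - 1).choose d ≤ m := by
  obtain ⟨n, rfl⟩ := Nat.exists_eq_succ_of_ne_zero (by omega : n ≠ 0)
  have := h3 n d m p q A h hne
  rwa [show n.succ + d - 1 = n + d by omega]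

theorem lower (h3 : T3b) {d n m : ℕ} (hn : 1 ≤ n) (hm : m ∈ S d n) (h0 : m ≠ 0) :
    (n + d - 1).choose d ≤ m := by
  obtain ⟨p, hp, A, hA⟩ := hm
  have key : ∀ z : Fin n → ℂ, ∑ j, eval z (p j) * (starRingEnd ℂ) (eval z (p j)) =
      ((∑ j, ‖eval z (p j)‖ ^ 2 : ℝ) : ℂ) := by
    intro z
    push_cast
    refine Finset.sum_congr rfl fun j _ => ?_
    rw [Complex.mul_conj, Complex.normSq_eq_norm_sq]
    push_cast
    rfl
  refine lower_fun h3 hn p p A (fun z => by rw [key z, hA z]) ?_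
  have j0 : Fin m := ⟨0, Nat.pos_of_ne_zero h0⟩
  have hj : p j0 ≠ 0 := hp.ne_zero j0
  obtain ⟨z, hz⟩ : ∃ z, eval z (p j0) ≠ 0 := by
    by_contra hcon
    push Not at hcon
    exact hj (MvPolynomial.funext fun z => by simpa using hcon z)
  refine ⟨z, ?_⟩
  rw [key z]
  have : 0 < ∑ j, ‖eval z (p j)‖ ^ 2 := by
    refine Finset.sum_pos' (fun j _ => by positivity) ⟨j0, Finset.mem_univ _, ?_⟩
    have := norm_pos_iff.2 hz
    positivity
  exact_mod_cast this.ne'

theorem S_one (h4 : T4) (h6 : T6a) (d : ℕ) : S d 1 = Set.univ := by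
  refine Set.eq_univ_of_forall fun m => ?_
  have h1 : 1 ∈ S d 1 := by
    have := h6 d 1 le_rfl
    simpa using this
  simpa using mul_mem h4 le_rfl h1 m

theorem S_two (h3 : T3b) (h4 : T4) (h6 : T6a) (h6b : T6b) (d : ℕ) :
    S d 2 = {m | m = 0 ∨ d + 1 ≤ m} := by
  have hN : (2 + d - 1).choose d = d + 1 := by
    rw [show 2 + d - 1 = d + 1 by omega]
    simp
  ext m
  constructor
  · intro hm
    by_cases h0 : m = 0
    · exact Or.inl h0
    · right
      have := lower h3 (by norm_num) hm h0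
      rwa [hN] at this
  · rintro (rfl | hm)
    · exact zero_mem d 2
    · have hN' : d + 1 ∈ S d 2 := by
        have := h6 d 2 (by norm_num)
        rwa [hN] at this
      obtain ⟨q, r, hr, hqr⟩ : ∃ q r, r ≤ d ∧ m = q * (d + 1) + r :=
        ⟨m / (d + 1), m % (d + 1), Nat.lt_succ_iff.1 (Nat.mod_lt _ (Nat.succ_pos _)),
          (Nat.div_add_mod' m (d + 1)).symm⟩
      by_cases h0 : r = 0
      · subst h0
        rw [hqr, add_zero]
        exact mul_mem h4 (by norm_num) hN' q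
      · have hq : q ≠ 0 := by
          rintro rfl
          omega
        obtain ⟨q', rfl⟩ := Nat.exists_eq_succ_of_ne_zero hq
        have hb := h6b d 2 (d - r) le_rfl (by omega)
        rw [hN, show 2 + (d - r) - 1 = (d - r) + 1 by omega] at hb
        have hc : ((d - r) + 1).choose (d - r) = d - r + 1 := by simp
        rw [hc] at hb
        have he : m = q' * (d + 1) + (2 * (d + 1) - (d - r + 1)) := by
          rw [hqr, Nat.succ_mul]
          omega
        rw [he]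
        exact h4 d 2 _ _ (by norm_num) (mul_mem h4 (by norm_num) hN' q') hb

theorem cofinite (h4 : T4) (h6 : T6a) (h6b : T6b) (h7 : T7a) {d n m : ℕ} (hn : 2 ≤ n)
    (hd : 1 ≤ d) (hm : 2 * ((n + d - 1).choose d - 1) ^ 2 ≤ m) : m ∈ S d n := by
  have hN : 1 ≤ (n + d - 1).choose d := Nat.choose_pos (by omega)
  obtain ⟨a, b, rfl⟩ := h7 _ m hN hm
  have h1 := h6 d n (by omega)
  have h2 := h6b d n 0 hn (by omega)
  rw [Nat.choose_zero_right] at h2
  exact h4 d n _ _ (by omega) (mul_mem h4 (by omega) h1 a) (mul_mem h4 (by omega) h2 b)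

theorem conductor (h4 : T4) (h6 : T6a) (h6b : T6b) (h7 : T7a) {d n m : ℕ} (hn : 1 ≤ n)
    (hm : 2 * ((n + d - 1).choose d - 1) ^ 2 ≤ m) : m ∈ S d n := by
  have h1 := h6 d n hn
  by_cases hn1 : n = 1
  · subst hn1
    rw [S_one h4 h6]
    trivial
  · by_cases hd : d = 0
    · subst hd
      rw [Nat.choose_zero_right] at h1
      simpa using mul_mem h4 hn h1 m
    · exact cofinite h4 h6 h6b h7 (by omega) (by omega) hm

/-- the semigroup of ranks -/
theorem semigroup (h4 : T4) (h6 : T6a) (h6b : T6b) (h7 : T7a) (n d : ℕ) (hn : 1 ≤ n) :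
    ∃ M : AddSubmonoid ℕ, (M : Set ℕ) = S d n ∧
      (∀ j < d, 2 ≤ n → 2 * (n + d - 1).choose d - (n + j - 1).choose j ∈ M) ∧
      ∀ m, 2 * ((n + d - 1).choose d - 1) ^ 2 ≤ m → m ∈ M := by
  refine ⟨{ carrier := S d n, zero_mem' := zero_mem d n,
            add_mem' := fun {a b} ha hb => h4 d n a b hn ha hb }, rfl, ?_, ?_⟩
  · intro j hj h2
    exact h6b d n j h2 hj
  · intro m hm
    exact conductor h4 h6 h6b h7 hn hm

end H402.CE
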