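import Pool.Agent.H402R2.CE.Stmts

/-! Task T3b: the lower bound for the rank, for functions. -/

open MvPolynomial

namespace H402.CE

theorem t3b (h2 : T2) (h3 : T3) : T3b := by
  intro n d m p q A hz hne
  set q' : Fin m → MvPolynomial (Fin (n + 1)) ℂ := fun j => map (starRingEnd ℂ) (q j) with hq'
  have hconj : ∀ (z : Fin (n + 1) → ℂ) (j : Fin m),
      eval (fun k => (starRingEnd ℂ) (z k)) (q' j) = (starRingEnd ℂ) (eval z (q j)) := by
    intro z j
    rw [hq', eval_map, MvPolynomial.eval, MvPolynomial.coe_eval₂Hom, eval₂_comp_left]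
    rfl
  have hev : ∀ z : Fin (n + 1) → ℂ, eval (Sum.elim z (fun k => (starRingEnd ℂ) (z k)))
      (∑ j, rename Sum.inl (p j) * rename Sum.inr (q' j)) =
      ∑ j, eval z (p j) * (starRingEnd ℂ) (eval z (q j)) := by
    intro z
    rw [map_sum]
    refine Finset.sum_congr rfl fun j _ => ?_
    rw [map_mul, eval_rename, eval_rename, ← hconj z j]
    rfl
  have hL : ∀ z : Fin (n + 1) → ℂ, eval (Sum.elim z (fun k => (starRingEnd ℂ) (z k)))
      (∑ k : Fin (n + 1), X (Sum.inl k) * X (Sum.inr k)) = ((∑ k, ‖z k‖ ^ 2 : ℝ) : ℂ) := by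
    intro z
    rw [map_sum, Complex.ofReal_sum]
    refine Finset.sum_congr rfl fun k _ => ?_
    rw [map_mul, eval_X, eval_X, Sum.elim_inl, Sum.elim_inr, Complex.mul_conj,
      Complex.normSq_eq_norm_sq]
  have hPA : (∑ j, rename Sum.inl (p j) * rename Sum.inr (q' j)) =
      (∑ k : Fin (n + 1), X (Sum.inl k) * X (Sum.inr k)) ^ d * A := by
    rw [← sub_eq_zero]
    apply h3
    intro z
    rw [map_sub, hev, hz z, map_mul, map_pow, hL, sub_self]
  refine h2 n d m p q' A hPA ?_
  rintro rfl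
  obtain ⟨z, hz0⟩ := hne
  apply hz0
  rw [← hev z, hPA, mul_zero, map_zero]

end H402.CE
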