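import Pool.Agent.H402R2.CE.Stmts

namespace H402.CE

theorem t7a : H402.CE.T7a := by
  intro N m hN hm
  obtain ⟨K, rfl⟩ : ∃ K, N = K + 1 := ⟨N - 1, by omega⟩
  rw [Nat.add_sub_cancel] at hm
  obtain ⟨b, hbK, e, he⟩ : ∃ b ≤ K, ∃ e, m + b = e * (K + 1) := by
    by_cases h : m % (K + 1) = 0
    · exact ⟨0, Nat.zero_le _, m / (K + 1), by
        have := Nat.div_add_mod m (K + 1)
        rw [h] at this
        rw [mul_comm]; omega⟩
    · have hlt := Nat.mod_lt m (Nat.succ_pos K)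
      refine ⟨K + 1 - m % (K + 1), by omega, m / (K + 1) + 1, ?_⟩
      have := Nat.div_add_mod m (K + 1)
      rw [add_mul, one_mul, mul_comm (m / (K + 1)) (K + 1)]
      have h2 : m % (K + 1) < K + 1 := hlt
      omega
  have hle : 2 * b ≤ e := by
    by_contra hcon
    push Not at hcon
    have h1 : (e + 1) * (K + 1) ≤ 2 * b * (K + 1) := Nat.mul_le_mul_right _ hcon
    have h2 : b * (2 * K + 1) ≤ K * (2 * K + 1) := Nat.mul_le_mul_right _ hbK
    nlinarith
  obtain ⟨c, rfl⟩ := Nat.exists_eq_add_of_le hle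
  refine ⟨c, b, ?_⟩
  have h3 : 2 * (K + 1) - 1 = 2 * K + 1 := by omega
  rw [h3]
  nlinarith

end H402.CE
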